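import Pool.Agent.H79.RD.Targets

/-! Module LF of the board rdh: a state never sits at a leaf. -/

namespace Pool.Agent.H69.RD

open Finset Pool.Agent.H79.RD

theorem pf_LF : T_LF := by
  intro V _ N b k g a a0 D L φ Forb z0 C d p z Rv St A evs hg hst c hc hcC
  rw [Finset.mem_image] at hc
  obtain ⟨π, hπ, rfl⟩ := hc
  have hlit : ∀ (j : Fin k) (l : Fin b), (φ (π.1 j) l, !(π.2 j l)) ∈ C := by
    intro j l
    apply hcC
    unfold clauseOf
    rw [Finset.mem_image]
    exact ⟨(j, l), Finset.mem_univ _, rfl⟩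
  have hval : bv φ z ∘ π.1 = π.2 := by
    funext j l
    have h := hst.fals _ (hlit j l)
    simp only [Function.comp, bv]
    revert h
    cases z (φ (π.1 j) l) <;> cases π.2 j l <;> simp
  have hact : ∀ j, π.1 j ∈ Act φ g Rv := by
    intro j
    unfold Act
    rw [Finset.mem_filter]
    refine ⟨Finset.mem_univ _, ?_⟩
    have hemp : unr φ Rv (π.1 j) = ∅ := by
      unfold unr
      rw [Finset.filter_eq_empty_iff]
      intro l _ h
      exact h (hst.vrs _ (hlit j l))
    rw [hemp]
    rw [Finset.card_empty]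
    exact hg
  have h := hst.sat π.1 hact
  rw [hval] at h
  exact h hπ

end Pool.Agent.H69.RD
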