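import Pool.Agent.H79.RD.Targets

/-! Module P2 of the board rdh: decay of powers. -/

namespace Pool.Agent.H69.RD

open Finset Pool.Agent.H79.RD

theorem pf_P2 (hP1 : T_P1) : T_P2 := by
  intro q a N k s hq h1 h2
  have h3 : 2 ^ s * (q - 1) ^ k ≤ q ^ k := hP1 q k s hq h2
  have h4 : q ^ k * (2 ^ s * a ^ k) ≤ q ^ k * N ^ k := by
    calc q ^ k * (2 ^ s * a ^ k) = 2 ^ s * (q * a) ^ k := by rw [mul_pow]; ring
      _ ≤ 2 ^ s * ((q - 1) * N) ^ k := by
          apply Nat.mul_le_mul_left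
          exact Nat.pow_le_pow_left h1 k
      _ = (2 ^ s * (q - 1) ^ k) * N ^ k := by rw [mul_pow]; ring
      _ ≤ q ^ k * N ^ k := Nat.mul_le_mul_right _ h3
  exact Nat.le_of_mul_le_mul_left h4 (Nat.pow_pos hq)

end Pool.Agent.H69.RD
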