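import Pool.Agent.H79.RD.Targets

/-! Module FS of the board rdh: the fresh start set. -/

namespace Pool.Agent.H69.RD

open Finset Pool.Agent.H79.RD

theorem pf_FS : T_FS := by
  intro V _ N b g φ hinj hg W
  set B2 : Finset (Fin N) := Finset.univ.filter (fun i => (unr φ W i).card < 2 * g) with hB2
  set St : Finset V := W ∪ (B2 ×ˢ (Finset.univ : Finset (Fin b))).image (fun q => φ q.1 q.2)
    with hSt
  have h1 : ∀ i, i ∈ B2 → unr φ St i = ∅ := by
    intro i hi
    unfold unr
    rw [Finset.filter_eq_empty_iff]
    intro j _ h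
    apply h
    rw [hSt, Finset.mem_union]
    right
    rw [Finset.mem_image]
    exact ⟨(i, j), Finset.mem_product.2 ⟨hi, Finset.mem_univ _⟩, rfl⟩
  have h2 : ∀ i, i ∉ B2 → unr φ St i = unr φ W i := by
    intro i hi
    unfold unr
    apply Finset.filter_congr
    intro j _
    rw [hSt, Finset.mem_union, not_or]
    constructor
    · intro h
      exact h.1
    · intro h
      refine ⟨h, ?_⟩
      intro h3
      rw [Finset.mem_image] at h3
      obtain ⟨q, hq, hq2⟩ := h3
      have h4 := hinj _ _ _ _ hq2
      rw [Finset.mem_product] at hq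
      rw [h4.1] at hq
      exact hi hq.1
  have h3 : ∀ i, i ∉ B2 → 2 * g ≤ (unr φ W i).card := by
    intro i hi
    rw [hB2, Finset.mem_filter] at hi
    by_contra h
    exact hi ⟨Finset.mem_univ _, by omega⟩
  have hact : Act φ g St = B2 := by
    ext i
    unfold Act
    rw [Finset.mem_filter]
    constructor
    · intro h
      by_contra hi
      have h4 := h.2
      rw [h2 i hi] at h4
      have h5 := h3 i hi
      omega
    · intro hi
      refine ⟨Finset.mem_univ _, ?_⟩
      rw [h1 i hi]
      rw [Finset.card_empty]
      exact hg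
  refine ⟨St, ?_, hact, ?_⟩
  · rw [hSt]
    exact Finset.subset_union_left
  · intro i hi
    rw [hact] at hi
    rw [h2 i hi]
    exact h3 i hi

end Pool.Agent.H69.RD
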